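import Pool.Agent.NBT.StmtsA
import Pool.Agent.Helper27_NTW.ZFF

/-!
# NBT squad, row IZF: zoom at a face of the simplex
-/

set_option autoImplicit false

open Matrix Filter Topology

namespace Pool.Agent.NBT.H52

open Pool.Agent.PFS Pool.Agent.PFJ Pool.Agent.NBT

variable {n : ℕ} {C : Set (V n)}

theorem fS_sact {K : ℕ} (w : Fin K → V n) (r : Fin K → ℝ) {J : Finset (Fin K)} {N : ℝ}
    (hr : ∀ l ∈ J, r l = N) (s : ℝ) (g : GL (Fin n) ℝ) :
    fS (fun l => s • act g (r l • w l)) J = s • act g (N • fS w J) := by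
  unfold fS
  rw [Finset.smul_sum, CC.act_sum, Finset.smul_sum]
  refine Finset.sum_congr rfl fun l hl => ?_
  show s • act g (r l • w l) = s • act g (N • w l)
  rw [hr l hl]

/-- the main step: the limit of the open face is a box -/
theorem core {Γ : Subgroup (GL (Fin n) ℝ)} (h : CC C Γ) {K : ℕ}
    {w w' : Fin K → V n} (hw : PES C w) (hw' : PES C w') (I : Finset (Fin K))
    (g : ℕ → GL (Fin n) ℝ) (s N : ℕ → ℝ) (r : ℕ → Fin K → ℝ) (hg : ∀ m, g m ∈ Γ)
    (hs : ∀ m, 0 < s m) (hN1 : ∀ m, 1 ≤ N m) (hN : Tendsto N atTop atTop)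
    (hri : ∀ m, ∀ l ∈ I, r m l = N m) (hr1 : ∀ m, ∀ l ∈ Iᶜ, r m l = 1)
    (hx : ∀ l, Tendsto (fun m => s m • act (g m) (r m l • w l)) atTop (𝓝 (w' l)))
    {L : Submodule ℝ (V n)} (hL : LimS (fun m => img (g m) (BI C w I)) L) :
    IB C w' I L := by
  have hP : PCone C := h.toPCone
  have hwc : ∀ l, w l ∈ closure C := fun l => PES.cl hw l
  have hfc : fS w I ∈ closure C := fS_cl hP hwc I
  obtain ⟨fc1, fc2, -, -, -⟩ := fcs n C hP (fS w I) hfc
  have hwi : ∀ i ∈ I, w i ∈ BI C w I := by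
    intro i hi
    refine fc2 _ (hwc i) 1 ?_
    rw [one_smul]
    have e : fS w I - w i = ∑ l ∈ I.erase i, w l := by
      unfold fS
      rw [← Finset.add_sum_erase _ _ hi]
      abel
    rw [e]
    exact hP.cl_sum fun l _ => hwc l
  have hmem : ∀ m, ∀ y ∈ BI C w I, ∀ c : ℝ, c • act (g m) y ∈ img (g m) (BI C w I) :=
    fun m y hy c => Submodule.smul_mem _ _ (mem_img.2 ⟨y, hy, rfl⟩)
  refine ⟨?_, ?_⟩
  · intro i hi
    exact hL.2 id _ (w' i) strictMono_id
      (fun m => hmem m _ (Submodule.smul_mem _ _ (hwi i hi)) _) (hx i)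
  intro v hv hvr
  obtain ⟨y, hy, hyv⟩ := hL.1 v hv
  have hvm : ∀ m, ∃ u ∈ BI C w I, s m • act (g m) u = y m := by
    intro m
    obtain ⟨u0, hu0, hu1⟩ := mem_img.1 (hy m)
    refine ⟨(s m)⁻¹ • u0, Submodule.smul_mem _ _ hu0, ?_⟩
    rw [CC.act_smul, smul_smul, mul_inv_cancel₀ (hs m).ne', one_smul, hu1]
  choose vv hvF hvy using hvm
  -- notation
  obtain ⟨F, hF⟩ : ∃ F, F = BI C w I := ⟨_, rfl⟩
  obtain ⟨f, hf⟩ : ∃ f, f = fS w I := ⟨_, rfl⟩
  obtain ⟨R, hR⟩ : ∃ R, R = fS w Iᶜ := ⟨_, rfl⟩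
  have hIs : ∀ m, fS (fun l => s m • act (g m) (r m l • w l)) I = s m • act (g m) (N m • f) := by
    intro m
    rw [fS_sact w (r m) (hri m) (s m) (g m), hf]
  have hrs : ∀ m, fS (fun l => s m • act (g m) (r m l • w l)) Iᶜ = s m • act (g m) R := by
    intro m
    rw [fS_sact w (r m) (hr1 m) (s m) (g m), hR, one_smul]
  have hxs : ∀ m, ∑ l, s m • act (g m) (r m l • w l) = s m • act (g m) (N m • f + R) := by
    intro m
    rw [← fS_add_compl (fun l => s m • act (g m) (r m l • w l)) I, hIs, hrs, CC.act_add, smul_add]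
  have hsum : Tendsto (fun m => s m • act (g m) (N m • f + R)) atTop (𝓝 (∑ l, w' l)) := by
    have h1 : Tendsto (fun m => ∑ l, s m • act (g m) (r m l • w l)) atTop (𝓝 (∑ l, w' l)) :=
      tendsto_finsetSum _ fun l _ => hx l
    refine h1.congr fun m => hxs m
  have hrst : Tendsto (fun m => s m • act (g m) R) atTop (𝓝 (fS w' Iᶜ)) := by
    have h1 : Tendsto (fun m => fS (fun l => s m • act (g m) (r m l • w l)) Iᶜ) atTop
        (𝓝 (fS w' Iᶜ)) := tendsto_finsetSum _ fun l _ => hx l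
    exact h1.congr fun m => hrs m
  have hpair : Tendsto (fun m => s m • act (g m) (N m • f)) atTop (𝓝 (fS w' I)) := by
    have h1 : Tendsto (fun m => fS (fun l => s m • act (g m) (r m l • w l)) I) atTop
        (𝓝 (fS w' I)) := tendsto_finsetSum _ fun l _ => hx l
    exact h1.congr fun m => hIs m
  have hS : ∑ l, w' l ∈ C := by
    have := hw'.pos (fun _ => 1) (fun _ => one_pos)
    simpa using this
  -- the claim for fixed `ε`
  have key : ∀ ε : ℝ, 0 < ε → v + (2 * ε) • fS w' I ∈ closure C := by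
    intro ε hε
    have t1 : Tendsto (fun m => s m • act (g m) (vv m + R + ε • (N m • f + R))) atTop
        (𝓝 (v + fS w' Iᶜ + ε • ∑ l, w' l)) := by
      have h1 := (hyv.add hrst).add (hsum.const_smul ε)
      refine h1.congr fun m => ?_
      rw [← hvy m, CC.act_add (g m) (vv m + R), CC.act_add (g m) (vv m) R, CC.act_smul (g m) ε]
      module
    have t1C : v + fS w' Iᶜ + ε • ∑ l, w' l ∈ C := hP.cl_add' hvr (hP.smul _ hS ε hε)
    have e1 : ∀ᶠ m in atTop, vv m + R + ε • (N m • f + R) ∈ closure C := by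
      filter_upwards [t1.eventually (hP.isOpen.mem_nhds t1C)] with m hm
      exact subset_closure ((h.sact_mem_iff (hg m) (hs m)).1 hm)
    obtain ⟨M, hM, hMC⟩ := hP.absorb hS v
    have t2 : Tendsto (fun m => s m • act (g m) (M • (N m • f + R) - vv m)) atTop
        (𝓝 (M • (∑ l, w' l) - v)) := by
      have h1 := (hsum.const_smul M).sub hyv
      refine h1.congr fun m => ?_
      rw [← hvy m, CC.act_sub, CC.act_smul (g m) M]
      module
    have e2 : ∀ᶠ m in atTop, M • (N m • f + R) - vv m ∈ closure C := by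
      filter_upwards [t2.eventually (hP.isOpen.mem_nhds hMC)] with m hm
      exact subset_closure ((h.sact_mem_iff (hg m) (hs m)).1 hm)
    have hfc' : f ∈ closure C := by rw [hf]; exact hfc
    have hRc : R ∈ closure C := by rw [hR]; exact hP.cl_sum fun l _ => hwc l
    have hη : Tendsto (fun m => (1 + ε) * (ε * N m)⁻¹) atTop (𝓝 0) := by
      have h1 : Tendsto (fun m => (ε * N m)⁻¹) atTop (𝓝 0) :=
        tendsto_inv_atTop_zero.comp (hN.const_mul_atTop hε)
      have h2 := h1.const_mul (1 + ε)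
      rwa [mul_zero] at h2
    have e3 := Pool.Agent.NTW.H27.unit_absorb uop hP (F := F) (f := f)
      (by rw [hF, hf]; exact fc1) R
      ((M / ε + 1) • f + ((M + 1 + ε) / ε) • R) (fun m => (ε * N m)⁻¹ • vv m + f)
      (fun m => (1 + ε) * (ε * N m)⁻¹) (fun m => by
        rw [hF]
        refine Submodule.add_mem _ (Submodule.smul_mem _ _ (hvF m)) ?_
        rw [hf]; exact fc1.1) hη (by
        filter_upwards [e1, e2] with m h1 h2
        have hNp : 0 < N m := lt_of_lt_of_le one_pos (hN1 m)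
        have hεN : 0 < ε * N m := mul_pos hε hNp
        constructor
        · have h3 := hP.cl_smul h1 (inv_pos.2 hεN).le
          have e : (ε * N m)⁻¹ • (vv m + R + ε • (N m • f + R)) =
              (ε * N m)⁻¹ • vv m + f + ((1 + ε) * (ε * N m)⁻¹) • R := by
            have e4 : (ε * N m)⁻¹ * (ε * N m) = 1 := inv_mul_cancel₀ hεN.ne'
            have e5 : (ε * N m)⁻¹ • (vv m + R + ε • (N m • f + R)) =
                (ε * N m)⁻¹ • vv m + ((ε * N m)⁻¹ * (ε * N m)) • f +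
                  ((1 + ε) * (ε * N m)⁻¹) • R := by module
            rw [e5, e4, one_smul]
          rwa [e] at h3
        · have h3 := hP.cl_smul h2 (inv_pos.2 hεN).le
          have hle : (M + 1 + ε) * (ε * N m)⁻¹ ≤ (M + 1 + ε) / ε := by
            rw [div_eq_mul_inv]
            refine mul_le_mul_of_nonneg_left ?_ (by linarith)
            rw [mul_inv]
            have : (N m)⁻¹ ≤ 1 := inv_le_one_of_one_le₀ (hN1 m)
            calc ε⁻¹ * (N m)⁻¹ ≤ ε⁻¹ * 1 := mul_le_mul_of_nonneg_left this (inv_pos.2 hε).le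
              _ = ε⁻¹ := mul_one _
          have h4 := hP.cl_add h3 (hP.cl_smul hRc (t := (M + 1 + ε) / ε -
            (M + 1 + ε) * (ε * N m)⁻¹) (by linarith))
          have e : (ε * N m)⁻¹ • (M • (N m • f + R) - vv m) +
              ((M + 1 + ε) / ε - (M + 1 + ε) * (ε * N m)⁻¹) • R =
              (M / ε + 1) • f + ((M + 1 + ε) / ε) • R -
                ((ε * N m)⁻¹ • vv m + f + ((1 + ε) * (ε * N m)⁻¹) • R) := by
            have e4 : (ε * N m)⁻¹ * (M * N m) = M / ε := by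
              field_simp
            have e5 : (ε * N m)⁻¹ • (M • (N m • f + R) - vv m) +
                ((M + 1 + ε) / ε - (M + 1 + ε) * (ε * N m)⁻¹) • R =
                ((ε * N m)⁻¹ * (M * N m)) • f + ((M + 1 + ε) / ε) • R -
                  ((ε * N m)⁻¹ • vv m + ((1 + ε) * (ε * N m)⁻¹) • R) := by module
            rw [e5, e4]
            module
          rwa [e] at h4)
    have t3 : Tendsto (fun m => s m • act (g m) (vv m + (2 * ε * N m) • f)) atTop
        (𝓝 (v + (2 * ε) • fS w' I)) := by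
      have h1 := hyv.add (hpair.const_smul (2 * ε))
      refine h1.congr fun m => ?_
      rw [← hvy m, CC.act_add, mul_smul (2 * ε) (N m) f, CC.act_smul (g m) (2 * ε)]
      module
    refine isClosed_closure.mem_of_tendsto t3 ?_
    filter_upwards [e3] with m hm
    rw [h.sact_cl_iff (hg m) (hs m)]
    have hNp : 0 < N m := lt_of_lt_of_le one_pos (hN1 m)
    have hεN : 0 < ε * N m := mul_pos hε hNp
    have h3 := hP.cl_smul hm hεN.le
    have e : (ε * N m) • (f + ((ε * N m)⁻¹ • vv m + f)) = vv m + (2 * ε * N m) • f := by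
      have e4 : (ε * N m) * (ε * N m)⁻¹ = 1 := mul_inv_cancel₀ hεN.ne'
      have e5 : (ε * N m) • (f + ((ε * N m)⁻¹ • vv m + f)) =
          ((ε * N m) * (ε * N m)⁻¹) • vv m + (2 * ε * N m) • f := by module
      rw [e5, e4, one_smul]
    rwa [e] at h3
  -- `ε → 0`
  have hlim : Tendsto (fun k : ℕ => v + (2 * (1 / ((k : ℝ) + 1))) • fS w' I) atTop
      (𝓝 (v + (2 * (0 : ℝ)) • fS w' I)) :=
    tendsto_const_nhds.add ((tendsto_one_div_add_atTop_nhds_zero_nat.const_mul 2).smul_const _)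
  rw [mul_zero, zero_smul, add_zero] at hlim
  exact isClosed_closure.mem_of_tendsto hlim
    (Eventually.of_forall fun k => key _ (by positivity))

/-- **Row IZF.** -/
theorem izf (ibf : IbfStmt) (ibi : IbiStmt) (ibl : IblStmt) : IzfStmt := by
  classical
  intro n C Γ Γ₀ K h hK FF hFF w hwF I
  have hP : PCone C := h.toPCone
  have hw : IsPES C Γ w := hFF.pes w hwF
  have hcard : 2 ≤ Fintype.card (Fin K) := by rw [Fintype.card_fin]; exact hK
  obtain ⟨r, hr⟩ : ∃ r : ℕ → Fin K → ℝ, r = fun (m : ℕ) l => if l ∈ I then (m : ℝ) + 1 else 1 :=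
    ⟨_, rfl⟩
  have hrp : ∀ m l, 0 < r m l := by
    intro m l
    rw [hr]
    show 0 < if l ∈ I then (m : ℝ) + 1 else 1
    split_ifs <;> positivity
  have hri : ∀ m, ∀ l ∈ I, r m l = (m : ℝ) + 1 := fun m l hl => by rw [hr]; simp [hl]
  have hr1 : ∀ m, ∀ l ∈ Iᶜ, r m l = 1 := fun m l hl => by
    have hl' : l ∉ I := Finset.mem_compl.1 hl
    rw [hr]; simp [hl']
  have hyF : ∀ m : ℕ, FF (fun l => r m l • w l) := fun m => hFF.scl w hwF (r m) (hrp m)
  obtain ⟨φ, g, s, p, hφ, hg, hs, hp, hlim⟩ := hFF.cpt (fun m l => r m l • w l) hyF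
  have hgΓ : ∀ m, g m ∈ Γ := fun m => hFF.sub (hg m)
  have hxF : ∀ m, FF (fun l => s m • act (g m) (r (φ m) l • w l)) := by
    intro m
    exact hFF.scl _ (hFF.inv _ (hyF (φ m)) (g m) (hg m)) (fun _ => s m) (fun _ => hs m)
  have hxP : ∀ m, IsPES C Γ (fun l => s m • act (g m) (r (φ m) l • w l)) :=
    fun m => hFF.pes _ (hxF m)
  have hxs : Tendsto (fun m => ∑ l, s m • act (g m) (r (φ m) l • w l)) atTop (𝓝 p) := by
    refine hlim.congr fun m => ?_
    rw [CC.act_sum, Finset.smul_sum]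
  obtain ⟨φ₁, w', hφ₁, hxW, hWp, hW⟩ :=
    Pool.Agent.PFS.H37.lpsF n C Γ h (Fin K) hcard
      (fun m l => s m • act (g m) (r (φ m) l • w l)) p hxP hp hxs
  have hWF : FF w' := hFF.cld _ w' (fun m => hxF (φ₁ m)) hxW (by rw [hWp]; exact hp)
  refine ⟨w', hWF, ?_, ?_⟩
  · obtain ⟨φ₂, L, hφ₂, hL, hfin⟩ :=
      Pool.Agent.PFJ.H69.lsc n (fun m => img (g (φ₁ m)) (BI C w I))
    refine ⟨L, ?_, ?_⟩
    · refine core h hw.1 hW.1 I (fun m => g (φ₁ (φ₂ m))) (fun m => s (φ₁ (φ₂ m)))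
        (fun m => (φ (φ₁ (φ₂ m)) : ℝ) + 1) (fun m => r (φ (φ₁ (φ₂ m)))) (fun m => hgΓ _)
        (fun m => hs _) (fun m => ?_) ?_ (fun m => hri _) (fun m => hr1 _)
        (fun l => (hxW l).comp hφ₂.tendsto_atTop) hL
      · have : (0 : ℝ) ≤ (φ (φ₁ (φ₂ m)) : ℝ) := Nat.cast_nonneg _
        linarith
      · refine tendsto_atTop_add_const_right _ _ ?_
        exact tendsto_natCast_atTop_atTop.comp
          (hφ.tendsto_atTop.comp (hφ₁.tendsto_atTop.comp hφ₂.tendsto_atTop))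
    · rw [← hfin 0, (Pool.Agent.PFJ.H32.img n).1]
  · intro J L₀ hL₀
    obtain ⟨φ₂, L, hφ₂, hL, hfin⟩ :=
      Pool.Agent.PFJ.H69.lsc n (fun m => img (g (φ₁ m)) L₀)
    refine ⟨L, ?_, ?_⟩
    · refine ibl n C hP K (fun m l => s (φ₁ (φ₂ m)) • act (g (φ₁ (φ₂ m)))
        (r (φ (φ₁ (φ₂ m))) l • w l)) w' J (fun m => img (g (φ₁ (φ₂ m))) L₀) L
        (fun m => (hxP _).1) hW.1 (fun l => (hxW l).comp hφ₂.tendsto_atTop) (fun m => ?_) hL
      have b1 := ((ibf n C hP K w hw.1).1 J L₀ hL₀).2.2.2 (r (φ (φ₁ (φ₂ m)))) (hrp _)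
      have hyc : ∀ l, r (φ (φ₁ (φ₂ m))) l • w l ∈ closure C := fun l =>
        hP.cl_smul (PES.cl hw.1 l) (hrp _ l).le
      exact (ibi n C Γ h K _ hyc).2.2 (g (φ₁ (φ₂ m))) (hgΓ _) (s (φ₁ (φ₂ m))) (hs _) J L₀ b1
    · rw [← hfin 0, (Pool.Agent.PFJ.H32.img n).1]

end Pool.Agent.NBT.H52
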